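import Pool.Agent.TH886.DensLog

/-!
# `R_b(x)` is almost constant in long ranges of `b` for almost all integers and almost all primes

`R b x = (log x / (log x) ^ b) (π(x + (log x) ^ b) - π(x))`. For all `M > 1`, `0 < δ ≤ 1` and `a₀`
there is `A` such that for all large `N` there is `a` in `[a₀, A]` such that
`|R b x - R a x| ≤ δ` simultaneously for all real `b` in `[a, M a]`, for all but at most `δ N`
integers `x < N` and for all but at most `δ π(N)` primes `x < N`, and the harmonic mean of `R a p`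
(truncated at `δ`) over the primes `p < N` is at least `1 / (1 + δ)`.
-/

set_option autoImplicit false

open Filter Topology

namespace Pool.Agent.Results.MP_b09185_nt.ConstantInLongRanges

/-- `(log x / (log x) ^ a) (π(x + (log x) ^ a) - π(x))` -/
noncomputable def R (a : ℝ) (x : ℕ) : ℝ :=
  Real.log x / Real.log x ^ a *
    (((Finset.Ioc x ⌊(x : ℝ) + Real.log x ^ a⌋₊).filter Nat.Prime).card : ℝ)

lemma R_eq (a : ℝ) (x : ℕ) : R a x = Pool.Agent.TH886.PD.psi x (Real.log x ^ a) := by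
  unfold R Pool.Agent.TH886.PD.psi Pool.Agent.H357R2.SI.piS
  rw [Nat.floor_natCast]
  ring

open Classical in
theorem result : ∀ M δ a₀ : ℝ, 1 < M → 0 < δ → δ ≤ 1 →
    ∃ A : ℝ, ∀ᶠ N : ℕ in atTop, ∃ a : ℝ, a₀ ≤ a ∧ 1 ≤ a ∧ a ≤ A ∧
      (((Finset.range N).filter (fun n : ℕ => ¬ ∀ b : ℝ, a ≤ b → b ≤ M * a →
        |R b n - R a n| ≤ δ)).card : ℝ) ≤ δ * N ∧
      (((Finset.range N).filter (fun p : ℕ => p.Prime ∧ ¬ ∀ b : ℝ, a ≤ b → b ≤ M * a →
        |R b p - R a p| ≤ δ)).card : ℝ) ≤ δ * Nat.primeCounting N ∧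
      ∑ p ∈ (Finset.range N).filter Nat.Prime, 1 / max (R a p) δ ≤
        (1 + δ) * Nat.primeCounting N := by
  intro M δ a₀ h1 h2 h3
  simp only [R_eq]
  exact Pool.Agent.TH886.PD.log_windows M δ a₀ h1 h2 h3

end Pool.Agent.Results.MP_b09185_nt.ConstantInLongRanges
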