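import Pool.Agent.TH894.LH6

/-!
# Primes near all but few integers, after a translation by one of `O(log log X)` numbers with few changed digits

Let `X = b ^ K`.  Take `k = O(log log X)` arbitrary integers `N_i < X` and change `C log log X` (or more) digits of each of them at
positions chosen in three windows.  Then for all but a proportion `1 / log ^ U X` of the choices of the positions all but at most
`X / log ^ C X` of the integers `a ≤ X / 2` have a prime within a power of `log X` of one of the points `a + n_i`, where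
`n_1, ..., n_k` are the numbers obtained.

Proof.  By the estimate for translates of arbitrary dense sets (`TH894/LH`), for all but a proportion `1 / K ^ (U + 1)` of
the choices at least a fifth of the elements `a` of any given set of at least `X / K ^ C` integers have a prime in the interval
`(a + n, a + n + K ^ κ]`.  This is applied `k` times to the set of the integers not yet reached.
-/

set_option autoImplicit false

namespace Pool.Agent.Results.MP_b09185_nt.FewTranslates

open Finset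

/-- The number of the primes in `(n, n + y]`. -/
def primesIn (n y : ℕ) : ℕ := ((Ioc n (n + y)).filter Nat.Prime).card

open Classical in
/-- With `X = b ^ K`: the translate `B + n` has good points: for all integers `y` with `K ^ κ ≤ y ≤ X / 4` the average of
`primesIn (a + n) y` over the `a ∈ B` differs from `y / log X` by at most `ε y / log X`, and at least
`(1 / 4 - ε) |B|` elements `a` of `B` have at least `ε y / log X` primes in `(a + n, a + n + y]`. -/
noncomputable def Good (ε : ℝ) (κ b K : ℕ) (B : Finset ℕ) (n : ℕ) : Prop :=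
  ∀ y : ℕ, (K : ℝ) ^ κ ≤ y → 4 * y ≤ b ^ K →
    |(∑ a ∈ B, (primesIn (a + n) y : ℝ)) * Real.log ((b ^ K : ℕ) : ℝ) - B.card * y| ≤ ε * (B.card * y) ∧
    (1 / 4 - ε) * B.card ≤ ((B.filter fun a => ε * y ≤ (primesIn (a + n) y : ℝ) * Real.log ((b ^ K : ℕ) : ℝ)).card : ℝ)

/-- The digit number `i` (counted from the right, beginning with `0`) of `n` in base `b`. -/
def digit (b i n : ℕ) : ℕ := n / b ^ i % b

/-- The number which arises from the number `N` with at most `K` digits in base `b`, if for every `i ∈ S`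
the digit number `i` is replaced by `f i`. -/
def change (b K N : ℕ) (f : ℕ → ℕ) (S : Finset ℕ) : ℕ :=
  ∑ i ∈ range K, (if i ∈ S then f i else digit b i N) * b ^ i

/-- The positions `1, ..., K - 1` of a number with at most `K` digits are divided into three windows: the
first and the last `h` positions and the rest. -/
def window (h K : ℕ) (q : Fin 3) : Finset ℕ :=
  if q = 0 then Ico 1 (1 + h) else if q = 1 then Ico (1 + h) (K - h) else Ico (K - h) K

/-- The choices of `s 0`, `s 1`, `s 2` positions in the three windows. -/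
def choices (h K : ℕ) (s : Fin 3 → ℕ) : Finset (Fin 3 → Finset ℕ) :=
  Fintype.piFinset (fun q => powersetCard (s q) (window h K q))

open Classical in
/-- The number of the choices for which the number obtained by changing the digits of `N` at the chosen
positions (according to `f`) does not have the property `E`. -/
noncomputable def exceptions (b h K N : ℕ) (f : ℕ → ℕ) (s : Fin 3 → ℕ) (E : ℕ → Prop) : ℕ :=
  ((choices h K s).filter (fun S => ¬ E (change b K N f (S 0 ∪ S 1 ∪ S 2)))).card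

lemma change_SM (b K N : ℕ) (f : ℕ → ℕ) (T : Finset ℕ) : change b K N f T = Pool.Agent.TH894.SM.change b K N f T := rfl

theorem single (b : ℕ) (hb : 2 ≤ b) : ∃ R : ℕ, 1 ≤ R ∧ ∀ C U A₀ : ℕ, ∀ ε : ℝ, 0 < ε → ε ≤ 1 / 4 → ∃ C₁ A κ K₀ : ℕ, 1 ≤ C₁ ∧ A₀ ≤ A ∧
    ∀ K : ℕ, K₀ ≤ K → (∀ q, R * (C₁ * (Nat.log b (K + 1) + 1)) ≤ (window (A * (Nat.log b (K + 1) + 1)) K q).card) ∧
    ∀ N : ℕ, N < b ^ K → ∀ f : ℕ → ℕ, (∀ j, f j < b ∧ f j ≠ digit b j N) →
    ∀ s : Fin 3 → ℕ, (∀ q, C₁ * (Nat.log b (K + 1) + 1) ≤ s q ∧ R * s q ≤ (window (A * (Nat.log b (K + 1) + 1)) K q).card) →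
    ∀ B : Finset ℕ, B ⊆ Icc 1 (b ^ K / 2) → ((b ^ K : ℕ) : ℝ) / (K : ℝ) ^ C ≤ B.card →
      (exceptions b (A * (Nat.log b (K + 1) + 1)) K N f s (fun n => 0 < n → Good ε κ b K B n) : ℝ) ≤
        1 / (K : ℝ) ^ U * (choices (A * (Nat.log b (K + 1) + 1)) K s).card := by
  classical
  obtain ⟨R, hR, H⟩ := Pool.Agent.TH894.LH.all_ch b hb
  refine ⟨8 * R, by omega, fun C U A₀ ε hε hε1 => ?_⟩
  obtain ⟨C₁, hC, H1⟩ := H C U ε hε hε1
  obtain ⟨A, κ, hA, k₀, h0⟩ := H1 (8 * R * C₁ + A₀)
  obtain ⟨k2, h2⟩ := Pool.Agent.W93.DG.hh_small b A 4 hb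
  refine ⟨C₁, 2 * A, κ, k₀ + k2 + 8, hC, by omega, fun K hK => ?_⟩
  have hwin : ∀ q, window (2 * A * (Nat.log b (K + 1) + 1)) K q =
      Pool.Agent.TH894.SM.Win (Pool.Agent.W93.DG.hh b A (K + 1)) (K + 1) q := by
    intro q
    unfold window Pool.Agent.TH894.SM.Win Pool.Agent.W93.DG.hh
    rw [Nat.add_sub_cancel]
  have hsm := h2 (K + 1) (by omega)
  have hlow : 8 * R * (C₁ * (Nat.log b (K + 1) + 1)) ≤ Pool.Agent.W93.DG.hh b A (K + 1) := by
    unfold Pool.Agent.W93.DG.hh
    calc 8 * R * (C₁ * (Nat.log b (K + 1) + 1)) = (8 * R * C₁) * (Nat.log b (K + 1) + 1) := by ring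
      _ ≤ (2 * A) * (Nat.log b (K + 1) + 1) := Nat.mul_le_mul_right _ (by omega)
  refine ⟨fun q => ?_, fun N hN f hf s hs B hB hBX => ?_⟩
  · rw [hwin]
    refine hlow.trans ?_
    unfold Pool.Agent.TH894.SM.Win
    split_ifs
    · rw [Nat.card_Ico]; omega
    · rw [Nat.card_Ico]; omega
    · rw [Nat.card_Ico]; omega
  have hun : ∀ S : Fin 3 → Finset ℕ, Pool.Agent.TH894.SM.un S = S 0 ∪ S 1 ∪ S 2 := by
    intro S
    unfold Pool.Agent.TH894.SM.un
    ext x
    simp only [mem_biUnion, mem_univ, true_and, mem_union]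
    constructor
    · rintro ⟨q, hq⟩
      have hq3 : q = 0 ∨ q = 1 ∨ q = 2 := by fin_cases q <;> simp
      rcases hq3 with rfl | rfl | rfl
      · exact Or.inl (Or.inl hq)
      · exact Or.inl (Or.inr hq)
      · exact Or.inr hq
    · rintro ((h | h) | h)
      · exact ⟨0, h⟩
      · exact ⟨1, h⟩
      · exact ⟨2, h⟩
  have hch : choices (2 * A * (Nat.log b (K + 1) + 1)) K s = Pool.Agent.TH894.LG.Ch b A K s := by
    unfold choices Pool.Agent.TH894.LG.Ch
    simp only [hwin]
  have hK0 : (0 : ℝ) < (K : ℝ) ^ C := by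
    have : (0 : ℝ) < K := by exact_mod_cast (by omega : 0 < K)
    positivity
  rw [div_le_iff₀ hK0] at hBX
  have key : ∀ E : ℕ → Prop, (∀ a, ¬ E a → 0 < a ∧ ¬ Good ε κ b K B a) →
      (exceptions b (2 * A * (Nat.log b (K + 1) + 1)) K N f s E : ℝ) ≤
        1 / (K : ℝ) ^ U * (choices (2 * A * (Nat.log b (K + 1) + 1)) K s).card := by
    intro E hE
    unfold exceptions
    rw [hch]
    refine h0 K (by omega) N hN f hf s (fun q => (hs q).1) (fun q => by rw [← hwin]; exact (hs q).2) B hB hBX _ (filter_subset _ _) ?_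
    intro S hS
    rw [mem_filter] at hS
    obtain ⟨_, hS2⟩ := hS
    rw [← hun S, change_SM] at hS2
    obtain ⟨h3, h4⟩ := hE _ hS2
    unfold Good at h4
    push Not at h4
    obtain ⟨y, hy1, hy2, hy3⟩ := h4
    refine ⟨h3, y, hy1, hy2, ?_⟩
    rintro ⟨h5, h6⟩
    exact absurd h6 (not_le.2 (hy3 h5))
  apply key
  intro a ha
  push Not at ha
  exact ha


/-- The number obtained from `N` by a choice `S` of the positions. -/
def value (b K N : ℕ) (f : ℕ → ℕ) (S : Fin 3 → Finset ℕ) : ℕ := change b K N f (S 0 ∪ S 1 ∪ S 2)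

/-- With `X = b ^ K`: the integers `1 ≤ a ≤ X / 2` such that for no `i` there is a prime in `(a + n i, a + n i + y]`. -/
noncomputable def far (b K y : ℕ) {k : ℕ} (n : Fin k → ℕ) : Finset ℕ :=
  (Icc 1 (b ^ K / 2)).filter (fun a => ∀ i, primesIn (a + n i) y = 0)

open Classical in
/-- the iteration -/
lemma iterate (b K y C : ℕ) (hb : 2 ≤ b) (h : ℕ) (δ : ℝ) (hδ : 0 ≤ δ) (hK : 1 ≤ K) (Adm : (ℕ) → (ℕ → ℕ) → (Fin 3 → ℕ) → Prop)
    (hstep : ∀ N f s, Adm N f s → ∀ B : Finset ℕ, B ⊆ Icc 1 (b ^ K / 2) → ((b ^ K : ℕ) : ℝ) / (K : ℝ) ^ C ≤ B.card →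
      (((choices h K s).filter (fun S => 0 < value b K N f S ∧
        4 / 5 * (B.card : ℝ) < ((B.filter (fun a => primesIn (a + value b K N f S) y = 0)).card : ℝ))).card : ℝ) ≤
        δ * (choices h K s).card) (k : ℕ) :
    ∀ (N : Fin k → ℕ) (f : Fin k → ℕ → ℕ) (s : Fin k → Fin 3 → ℕ), (∀ i, Adm (N i) (f i) (s i)) →
      (((Fintype.piFinset (fun i => choices h K (s i))).filter (fun S => (∀ i, 0 < value b K (N i) (f i) (S i)) ∧
        max ((4 / 5 : ℝ) ^ k * ((b ^ K : ℕ) : ℝ)) (((b ^ K : ℕ) : ℝ) / (K : ℝ) ^ C) <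
          ((far b K y (fun i => value b K (N i) (f i) (S i))).card : ℝ))).card : ℝ) ≤
        k * δ * ∏ i, ((choices h K (s i)).card : ℝ) := by
  induction k with
  | zero =>
    intro N f s _
    have h0 : ((Fintype.piFinset (fun i => choices h K (s i))).filter (fun S => (∀ i, 0 < value b K (N i) (f i) (S i)) ∧
        max ((4 / 5 : ℝ) ^ 0 * ((b ^ K : ℕ) : ℝ)) (((b ^ K : ℕ) : ℝ) / (K : ℝ) ^ C) <
          ((far b K y (fun i => value b K (N i) (f i) (S i))).card : ℝ))) = ∅ := by
      rw [filter_eq_empty_iff]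
      rintro S - ⟨-, hS⟩
      have h1 : (far b K y (fun i => value b K (N i) (f i) (S i))).card ≤ b ^ K := by
        refine (card_filter_le _ _).trans ?_
        rw [Nat.card_Icc]
        omega
      have h2 : ((far b K y (fun i => value b K (N i) (f i) (S i))).card : ℝ) ≤ ((b ^ K : ℕ) : ℝ) := by exact_mod_cast h1
      have h3 := lt_of_le_of_lt (le_max_left _ _) hS
      rw [pow_zero, one_mul] at h3
      linarith
    rw [h0]
    simp
  | succ k ih =>
    intro N f s hadm
    obtain ⟨X, hX⟩ : ∃ X : ℝ, X = ((b ^ K : ℕ) : ℝ) := ⟨_, rfl⟩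
    have hX0 : 0 ≤ X := by rw [hX]; exact Nat.cast_nonneg _
    obtain ⟨Q, hQ⟩ : ∃ Q : ℝ, Q = ((b ^ K : ℕ) : ℝ) / (K : ℝ) ^ C := ⟨_, rfl⟩
    obtain ⟨N', hN'⟩ : ∃ N' : Fin k → ℕ, N' = fun i => N i.castSucc := ⟨_, rfl⟩
    obtain ⟨f', hf'⟩ : ∃ f' : Fin k → ℕ → ℕ, f' = fun i => f i.castSucc := ⟨_, rfl⟩
    obtain ⟨s', hs'⟩ : ∃ s' : Fin k → Fin 3 → ℕ, s' = fun i => s i.castSucc := ⟨_, rfl⟩
    have ihk := ih N' f' s' (fun i => by rw [hN', hf', hs']; exact hadm _)
    obtain ⟨ch, hch⟩ : ∃ ch, ch = choices h K (s (Fin.last k)) := ⟨_, rfl⟩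
    obtain ⟨pi, hpi⟩ : ∃ pi, pi = Fintype.piFinset (fun i => choices h K (s' i)) := ⟨_, rfl⟩
    obtain ⟨fr, hfr⟩ : ∃ fr : (Fin k → Fin 3 → Finset ℕ) → Finset ℕ, fr = fun S => far b K y (fun i => value b K (N' i) (f' i) (S i)) := ⟨_, rfl⟩
    obtain ⟨E, hE⟩ : ∃ E, E = pi.filter (fun S => (∀ i, 0 < value b K (N' i) (f' i) (S i)) ∧
        max ((4 / 5 : ℝ) ^ k * X) Q < ((fr S).card : ℝ)) := ⟨_, rfl⟩
    have hEc : (E.card : ℝ) ≤ k * δ * ∏ i, ((choices h K (s' i)).card : ℝ) := by
      rw [hE, hpi, hfr, hX, hQ]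
      exact ihk
    obtain ⟨bad, hbad⟩ : ∃ bad : (Fin k → Fin 3 → Finset ℕ) → (Fin 3 → Finset ℕ) → Prop, bad = fun S t =>
        Q ≤ (fr S).card ∧ 0 < value b K (N (Fin.last k)) (f (Fin.last k)) t ∧
        4 / 5 * ((fr S).card : ℝ) < (((fr S).filter (fun a => primesIn (a + value b K (N (Fin.last k)) (f (Fin.last k)) t) y = 0)).card : ℝ) := ⟨_, rfl⟩
    have hone : ∀ S, ((ch.filter (fun t => bad S t)).card : ℝ) ≤ δ * ch.card := by
      intro S
      by_cases hq : Q ≤ (fr S).card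
      · have h1 := hstep _ _ _ (hadm (Fin.last k)) (fr S) (by rw [hfr]; exact filter_subset _ _) (by rw [← hQ]; exact hq)
        rw [← hch] at h1
        refine le_trans ?_ h1
        apply Nat.cast_le.2
        apply card_le_card
        intro t ht
        rw [mem_filter, hbad] at ht
        rw [mem_filter]
        exact ⟨ht.1, ht.2.2⟩
      · have h1 : ch.filter (fun t => bad S t) = ∅ := by
          rw [filter_eq_empty_iff]
          intro t _ ht
          rw [hbad] at ht
          exact hq ht.1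
        rw [h1]
        simp only [card_empty, Nat.cast_zero]
        positivity
    have hcard : ((Fintype.piFinset (fun i => choices h K (s i))).filter (fun S => (∀ i, 0 < value b K (N i) (f i) (S i)) ∧
        max ((4 / 5 : ℝ) ^ (k + 1) * ((b ^ K : ℕ) : ℝ)) (((b ^ K : ℕ) : ℝ) / (K : ℝ) ^ C) <
          ((far b K y (fun i => value b K (N i) (f i) (S i))).card : ℝ))).card ≤
        (E ×ˢ ch).card + ((pi ×ˢ ch).filter (fun p => bad p.1 p.2)).card := by
      refine le_trans ?_ (card_union_le _ _)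
      refine card_le_card_of_injOn (fun S => ((fun i => S i.castSucc), S (Fin.last k))) ?_ ?_
      · intro S hS
        rw [mem_coe, mem_filter, Fintype.mem_piFinset] at hS
        obtain ⟨h1, h2, h3⟩ := hS
        rw [← hQ, ← hX] at h3
        rw [mem_coe, mem_union, mem_product, mem_filter, mem_product]
        have hmem : (fun i : Fin k => S i.castSucc) ∈ pi := by
          rw [hpi, Fintype.mem_piFinset]
          intro i
          rw [hs']
          exact h1 _
        have hlast : S (Fin.last k) ∈ ch := by rw [hch]; exact h1 _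
        have hfar : far b K y (fun i => value b K (N i) (f i) (S i)) =
            (fr (fun i => S i.castSucc)).filter (fun a => primesIn (a + value b K (N (Fin.last k)) (f (Fin.last k)) (S (Fin.last k))) y = 0) := by
          rw [hfr, hN', hf']
          unfold far
          ext a
          simp only [mem_filter]
          rw [Fin.forall_fin_succ']
          tauto
        have hle : ((far b K y (fun i => value b K (N i) (f i) (S i))).card : ℝ) ≤ ((fr (fun i => S i.castSucc)).card : ℝ) := by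
          rw [hfar]
          exact_mod_cast card_filter_le _ _
        have hQlt : Q < ((fr (fun i => S i.castSucc)).card : ℝ) := lt_of_lt_of_le (lt_of_le_of_lt (le_max_right _ _) h3) hle
        by_cases hEE : (fun i : Fin k => S i.castSucc) ∈ E
        · exact Or.inl ⟨hEE, hlast⟩
        · right
          refine ⟨⟨hmem, hlast⟩, ?_⟩
          rw [hbad]
          refine ⟨hQlt.le, h2 _, ?_⟩
          have h4 : ((fr (fun i => S i.castSucc)).card : ℝ) ≤ (4 / 5 : ℝ) ^ k * X := by
            by_contra hcon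
            push Not at hcon
            apply hEE
            rw [hE, mem_filter]
            refine ⟨hmem, fun i => ?_, max_lt hcon hQlt⟩
            rw [hN', hf']
            exact h2 _
          have h5 := lt_of_le_of_lt (le_max_left _ _) h3
          rw [hfar] at h5
          refine lt_of_le_of_lt ?_ h5
          calc 4 / 5 * ((fr (fun i => S i.castSucc)).card : ℝ) ≤ 4 / 5 * ((4 / 5 : ℝ) ^ k * X) := by
                apply mul_le_mul_of_nonneg_left h4 (by norm_num)
            _ = (4 / 5 : ℝ) ^ (k + 1) * X := by ring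
      · intro S _ S' _ hSS
        have e1 := congrArg Prod.fst hSS
        have e2 := congrArg Prod.snd hSS
        funext i
        refine Fin.lastCases ?_ (fun j => ?_) i
        · exact e2
        · exact congrFun e1 j
    have h6 : ((pi ×ˢ ch).filter (fun p => bad p.1 p.2)).card = ∑ S ∈ pi, (ch.filter (fun t => bad S t)).card := by
      rw [card_filter, sum_product]
      refine sum_congr rfl fun S _ => ?_
      rw [card_filter]
    have h7 : (((pi ×ˢ ch).filter (fun p => bad p.1 p.2)).card : ℝ) ≤ pi.card * (δ * ch.card) := by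
      rw [h6]
      push_cast
      refine (sum_le_sum fun S _ => hone S).trans ?_
      rw [sum_const, nsmul_eq_mul]
    have hpc : (pi.card : ℝ) = ∏ i, ((choices h K (s' i)).card : ℝ) := by
      rw [hpi, Fintype.card_piFinset]
      push_cast
      rfl
    have h8 := (Nat.cast_le (α := ℝ)).2 hcard
    rw [Nat.cast_add, card_product, Nat.cast_mul] at h8
    refine h8.trans ?_
    have h9 : ∏ i, ((choices h K (s i)).card : ℝ) = (∏ i, ((choices h K (s' i)).card : ℝ)) * ch.card := by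
      rw [Fin.prod_univ_castSucc, hch, hs']
    rw [h9]
    have hch0 : (0 : ℝ) ≤ ch.card := Nat.cast_nonneg _
    have h10 := mul_le_mul_of_nonneg_right hEc hch0
    rw [hpc] at h7
    push_cast
    nlinarith

/-- **Primes near all but few integers.**  For every base `b ≥ 2` there is an `R ≥ 1` with the following property.  Let `C`, `U` be
given.  Then there are `C₁ ≥ 1`, `A`, `κ` and `k₀` such that for every sufficiently large `K` the following holds, with `X = b ^ K`,
`m = ⌊log_b (K + 1)⌋ + 1`, `h = A m` and `k = k₀ m` (so `k = O(log log X)`).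

Divide the positions `1, ..., K - 1` of the digits into three windows: the first `h` and the last `h` of them, and the rest.
Let `N i < X`, `i ≤ k`, be arbitrary integers, prescribe for every `i` and every position `j` a digit `f i j` different from the
digit of `N i`, and let the `s i q` be integers between `C₁ m` and `1 / R` times the length of the respective window (by the first
assertion one can take `s i q = C₁ m`).  Choose for every `i` `s i 0`, `s i 1`, `s i 2` positions in the three windows, and replace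
the digits of `N i` at these positions, which gives `n i`.

Then for all but at most a proportion `1 / K ^ U` of the choices one of the `n i` is `0`, or for all but at most `X / K ^ C`
of the integers `1 ≤ a ≤ X / 2` there is an `i` such that there is a prime in `(a + n i, a + n i + K ^ κ]`. -/
theorem result (b : ℕ) (hb : 2 ≤ b) : ∃ R : ℕ, 1 ≤ R ∧ ∀ C U : ℕ, ∃ C₁ A κ k₀ K₀ : ℕ, 1 ≤ C₁ ∧
    ∀ K : ℕ, K₀ ≤ K → (∀ q, R * (C₁ * (Nat.log b (K + 1) + 1)) ≤ (window (A * (Nat.log b (K + 1) + 1)) K q).card) ∧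
    ∀ N : Fin (k₀ * (Nat.log b (K + 1) + 1)) → ℕ, (∀ i, N i < b ^ K) →
    ∀ f : Fin (k₀ * (Nat.log b (K + 1) + 1)) → ℕ → ℕ, (∀ i j, f i j < b ∧ f i j ≠ digit b j (N i)) →
    ∀ s : Fin (k₀ * (Nat.log b (K + 1) + 1)) → Fin 3 → ℕ,
      (∀ i q, C₁ * (Nat.log b (K + 1) + 1) ≤ s i q ∧ R * s i q ≤ (window (A * (Nat.log b (K + 1) + 1)) K q).card) →
      (((Fintype.piFinset (fun i => choices (A * (Nat.log b (K + 1) + 1)) K (s i))).filter (fun S =>
        (∀ i, 0 < value b K (N i) (f i) (S i)) ∧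
          ((b ^ K : ℕ) : ℝ) / (K : ℝ) ^ C < ((far b K (K ^ κ) (fun i => value b K (N i) (f i) (S i))).card : ℝ))).card : ℝ) ≤
        1 / (K : ℝ) ^ U * ∏ i, ((choices (A * (Nat.log b (K + 1) + 1)) K (s i)).card : ℝ) := by
  classical
  obtain ⟨R, hR, H⟩ := single b hb
  refine ⟨R, hR, fun C U => ?_⟩
  obtain ⟨k₀, hk₀⟩ := pow_unbounded_of_one_lt ((b : ℝ) ^ C) (by norm_num : (1 : ℝ) < 5 / 4)
  obtain ⟨C₁, A, κ, K₁, hC₁, hA, H1⟩ := H C (U + 1) k₀ (1 / 20) (by norm_num) (by norm_num)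
  obtain ⟨K₂, h2⟩ := Pool.Agent.TH894.LH.poly_small b κ hb
  obtain ⟨K₃, h3⟩ := Pool.Agent.W93.DG.hh_small b A 4 hb
  refine ⟨C₁, A, κ, k₀, K₁ + K₂ + K₃ + 64 * b, hC₁, fun K hK => ?_⟩
  have H1K := H1 K (by omega)
  obtain ⟨m, hm⟩ : ∃ m, m = Nat.log b (K + 1) + 1 := ⟨_, rfl⟩
  rw [← hm] at H1K ⊢
  obtain ⟨hw, H2⟩ := H1K
  refine ⟨hw, fun N hN f hf s hs => ?_⟩
  have hKr : (1 : ℝ) ≤ K := by exact_mod_cast (by omega : 1 ≤ K)
  have hX0 : (0 : ℝ) < ((b ^ K : ℕ) : ℝ) := by exact_mod_cast Nat.pow_pos (by omega)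
  -- `4 K ^ κ ≤ X`
  have h4 : 4 * K ^ κ ≤ b ^ K := by
    have e1 := h2 K (by omega)
    have e2 : K / (16 * b) + 2 ≤ K := by
      have : K / (16 * b) ≤ K / 2 := Nat.div_le_div_left (by omega) (by norm_num)
      omega
    calc 4 * K ^ κ ≤ b ^ 2 * b ^ (K / (16 * b)) := by
          apply Nat.mul_le_mul _ e1
          nlinarith
      _ = b ^ (K / (16 * b) + 2) := by rw [← pow_add, add_comm]
      _ ≤ b ^ K := Nat.pow_le_pow_right (by omega) e2
  -- `k ≤ K`
  have hkK : k₀ * m ≤ K := by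
    have e1 := h3 (K + 1) (by omega)
    have e2 : k₀ * m ≤ Pool.Agent.W93.DG.hh b A (K + 1) := by
      unfold Pool.Agent.W93.DG.hh
      rw [← hm]
      calc k₀ * m ≤ A * m := Nat.mul_le_mul_right _ hA
        _ ≤ _ := by
          first
          | exact Nat.mul_le_mul_right _ (by omega)
          | nlinarith
    omega
  -- `(4 / 5) ^ k ≤ 1 / K ^ C`
  have h5 : (4 / 5 : ℝ) ^ (k₀ * m) * ((b ^ K : ℕ) : ℝ) ≤ ((b ^ K : ℕ) : ℝ) / (K : ℝ) ^ C := by
    have e1 : (K : ℝ) ≤ (b : ℝ) ^ m := by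
      have : K + 1 < b ^ m := by rw [hm]; exact Nat.lt_pow_succ_log_self (by omega) _
      exact_mod_cast (by omega : K ≤ b ^ m)
    have e2 : (K : ℝ) ^ C ≤ (5 / 4 : ℝ) ^ (k₀ * m) := by
      calc (K : ℝ) ^ C ≤ ((b : ℝ) ^ m) ^ C := pow_le_pow_left₀ (by linarith) e1 C
        _ = ((b : ℝ) ^ C) ^ m := by rw [← pow_mul, ← pow_mul, mul_comm]
        _ ≤ ((5 / 4 : ℝ) ^ k₀) ^ m := pow_le_pow_left₀ (by positivity) hk₀.le m
        _ = (5 / 4 : ℝ) ^ (k₀ * m) := by rw [← pow_mul]
    have e3 : (4 / 5 : ℝ) ^ (k₀ * m) * (5 / 4 : ℝ) ^ (k₀ * m) = 1 := by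
      rw [← mul_pow]; norm_num
    have e4 : (0 : ℝ) < (K : ℝ) ^ C := by positivity
    rw [le_div_iff₀ e4]
    have e5 : (0 : ℝ) < (4 / 5 : ℝ) ^ (k₀ * m) := by positivity
    calc (4 / 5 : ℝ) ^ (k₀ * m) * ((b ^ K : ℕ) : ℝ) * (K : ℝ) ^ C ≤
          (4 / 5 : ℝ) ^ (k₀ * m) * ((b ^ K : ℕ) : ℝ) * (5 / 4 : ℝ) ^ (k₀ * m) :=
          mul_le_mul_of_nonneg_left e2 (by positivity)
      _ = ((4 / 5 : ℝ) ^ (k₀ * m) * (5 / 4 : ℝ) ^ (k₀ * m)) * ((b ^ K : ℕ) : ℝ) := by ring
      _ = ((b ^ K : ℕ) : ℝ) := by rw [e3, one_mul]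
  have hstep : ∀ (N : ℕ) (f : ℕ → ℕ) (s : Fin 3 → ℕ), (N < b ^ K ∧ (∀ j, f j < b ∧ f j ≠ digit b j N) ∧
      (∀ q, C₁ * m ≤ s q ∧ R * s q ≤ (window (A * m) K q).card)) →
      ∀ B : Finset ℕ, B ⊆ Icc 1 (b ^ K / 2) → ((b ^ K : ℕ) : ℝ) / (K : ℝ) ^ C ≤ B.card →
      (((choices (A * m) K s).filter (fun S => 0 < value b K N f S ∧
        4 / 5 * (B.card : ℝ) < ((B.filter (fun a => primesIn (a + value b K N f S) (K ^ κ) = 0)).card : ℝ))).card : ℝ) ≤
        1 / (K : ℝ) ^ (U + 1) * (choices (A * m) K s).card := by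
    rintro N f s ⟨a1, a2, a3⟩ B hB hBX
    have H3 := H2 N a1 f a2 s a3 B hB hBX
    obtain ⟨E, hE⟩ : ∃ E : ℕ → Prop, E = fun n => 0 < n → Good (1 / 20) κ b K B n := ⟨_, rfl⟩
    rw [← hE] at H3
    refine le_trans ?_ H3
    unfold exceptions
    apply Nat.cast_le.2
    apply card_le_card
    intro S hS
    rw [mem_filter] at hS ⊢
    refine ⟨hS.1, fun hgood => ?_⟩
    obtain ⟨h6, h7⟩ := hS.2
    rw [hE] at hgood
    have h8 := (hgood h6 (K ^ κ) (by push_cast; exact le_rfl) h4).2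
    have h9 : (B.filter fun a => 1 / 20 * ((K ^ κ : ℕ) : ℝ) ≤ (primesIn (a + value b K N f S) (K ^ κ) : ℝ) * Real.log ((b ^ K : ℕ) : ℝ)).card +
        (B.filter (fun a => primesIn (a + value b K N f S) (K ^ κ) = 0)).card ≤ B.card := by
      rw [← card_union_of_disjoint]
      · exact card_le_card (union_subset (filter_subset _ _) (filter_subset _ _))
      · rw [disjoint_left]
        intro a ha ha'
        rw [mem_filter] at ha ha'
        have e1 := ha.2
        rw [ha'.2, Nat.cast_zero, zero_mul] at e1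
        have e2 : (0 : ℝ) < ((K ^ κ : ℕ) : ℝ) := by exact_mod_cast Nat.pow_pos (by omega)
        linarith
    have h10 := (Nat.cast_le (α := ℝ)).2 h9
    rw [Nat.cast_add] at h10
    have h11 : (1 / 4 - 1 / 20) * (B.card : ℝ) ≤
        ((B.filter fun a => 1 / 20 * ((K ^ κ : ℕ) : ℝ) ≤ (primesIn (a + value b K N f S) (K ^ κ) : ℝ) * Real.log ((b ^ K : ℕ) : ℝ)).card : ℝ) := h8
    linarith
  have h6 := iterate b K (K ^ κ) C hb (A * m) (1 / (K : ℝ) ^ (U + 1)) (by positivity) (by omega)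
    (fun N f s => N < b ^ K ∧ (∀ j, f j < b ∧ f j ≠ digit b j N) ∧ (∀ q, C₁ * m ≤ s q ∧ R * s q ≤ (window (A * m) K q).card))
    hstep (k₀ * m) N f s (fun i => ⟨hN i, hf i, hs i⟩)
  rw [max_eq_right h5] at h6
  refine h6.trans ?_
  apply mul_le_mul_of_nonneg_right _ (prod_nonneg fun i _ => Nat.cast_nonneg _)
  have e1 : ((k₀ * m : ℕ) : ℝ) ≤ K := by exact_mod_cast hkK
  have e2 : (0 : ℝ) < (K : ℝ) ^ U := by positivity
  rw [mul_one_div, div_le_div_iff₀ (by positivity) e2, one_mul, pow_succ]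
  calc ((k₀ * m : ℕ) : ℝ) * (K : ℝ) ^ U ≤ K * (K : ℝ) ^ U := mul_le_mul_of_nonneg_right e1 e2.le
    _ = (K : ℝ) ^ U * K := by ring

end Pool.Agent.Results.MP_b09185_nt.FewTranslates
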